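import Mathlib
import Pool.Agent.H341Q.BDDefs
import Pool.Agent.H341Q.BDMain

/-!
# Choose may win the bounded-ideal game at cardinals that are not generically measurable

Let `κ` and `γ < κ` be regular and suppose that `κ ≤ μ ^ θ` for some `μ < κ` and `θ < γ` (for
example `κ = μ⁺` where `μ` is singular of cofinality `θ`).  If there is a uniform `γ`-complete
ultrafilter on `κ`, then Choose wins `U(κ, bd_κ, <γ)`, but no `<γ`-closed notion of forcing
witnesses that `κ` is generically measurable.

If there is a strongly compact cardinal `κ'`, then for every uncountable regular `γ ≤ κ'` there are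
arbitrarily large such `κ`.

Proof.  Let `f x`, `x < κ`, be different functions from `θ` to `μ`.  A `<γ`-closed notion of forcing
decides the values `m i` such that `{x | f x i = m i}` is in the generic ultrafilter, for all
`i < θ` at once.  By completeness the set `{x | f x = m}` is in the generic ultrafilter; but it has
at most one element.
-/

namespace Pool.Agent.Results.MP_071b0a_lc.NotGenericallyMeasurable

open Cardinal Pool.Agent.H341Q.BD

universe u v

theorem result :
    (∀ κ γ μ θ : Cardinal.{u}, κ.IsRegular → γ.IsRegular → γ < κ → θ < γ → μ < κ → κ ≤ μ ^ θ →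
      (∃ U : Ultrafilter κ.ord.ToType, CardinalInterFilter (U : Filter κ.ord.ToType) γ ∧
        ∀ A ∈ U, ¬ BddAbove A) →
      ChooseWinsBd κ γ ∧ ∀ (P : Type v) [Preorder P], Nonempty P → Closed P γ →
        ¬ GenericallyMeasurable P κ) ∧
    ∀ κ' γ ν : Cardinal.{u}, StronglyCompact κ' → γ.IsRegular → ℵ₀ < γ → γ ≤ κ' →
      ∃ κ : Cardinal.{u}, κ.IsRegular ∧ ν < κ ∧ γ < κ ∧ ChooseWinsBd κ γ ∧
        ∀ (P : Type v) [Preorder P], Nonempty P → Closed P γ → ¬ GenericallyMeasurable P κ :=
  main

end Pool.Agent.Results.MP_071b0a_lc.NotGenericallyMeasurable
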